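import Pool.Agent.H290R4.Chern

/-!
# Projective modules over group rings of torsion-free groups: the higher Chern-Connes numbers

Let `k` be a commutative ring, `G` a group, `e` an idempotent matrix over `k[G]`, and let
`(Ω, δ, T)` be a cycle of dimension `2 n ≥ 2` over `k[G]` (a graded `k`-algebra `Ω` with a
differential `δ`, a closed graded trace `T : Ω → M` of degree `2 n` with values in a `k`-module
`M`, and an algebra map `ρ : k[G] → Ω 0`).  Let `p` be a prime such that `G` has no element of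
order `p` and such that `T` kills every `ρ(a) δρ(b_1) ⋯ δρ(b_{2n})` whose product
`g = a b_1 ⋯ b_{2n}` is `≠ 1` and conjugate to some `g ^ (p ^ j)`, `j ≥ 1`.  Then
`centralBinom n • T (tr (ρ(e) (δ ρ(e)) ^ (2 n)))` lies in `p ^ m M` for all `m`.
In particular it vanishes if `M` is `p`-adically separated.
For idempotent matrices over `k` the number `T (tr (e (δ e) ^ (2 n)))` is zero, so this is what
surjectivity of `K_0(k) → K_0(k[G])` predicts, `p`-adically and up to the factor.
-/

set_option autoImplicit false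

namespace Pool.Agent.Results.MP_1a2884_al.ChernDivisible

open Pool.Agent.H23R2.Ch

universe u1 u2 u3 u4 u5

theorem result (k : Type u1) [CommRing k] (G : Type u2) [Group G]
    (d : Type u3) [Fintype d] [DecidableEq d]
    (e : Matrix d d (MonoidAlgebra k G)) (he : e * e = e)
    (M : Type u4) [AddCommGroup M] [Module k M]
    (Ω : Type u5) [Ring Ω] [Algebra k Ω] (𝒜 : ℕ → Submodule k Ω) [GradedAlgebra 𝒜]
    (δ : Ω →ₗ[k] Ω) (T : Ω →ₗ[k] M) (n : ℕ) (hn : 1 ≤ n) (h : IsCycle (2 * n) 𝒜 δ T)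
    (ρ : MonoidAlgebra k G →ₐ[k] Ω) (hρ : ∀ a, ρ a ∈ 𝒜 0)
    (p : ℕ) (hp : p.Prime) (hG : ∀ g : G, g ^ p = 1 → g = 1)
    (hloc : ∀ g : G, g ≠ 1 → (∃ j, 1 ≤ j ∧ IsConj g (g ^ p ^ j)) →
      ∀ (a : G) (l : List G), l.length = 2 * n → a * l.prod = g →
        T (ρ (MonoidAlgebra.single a 1) *
          (l.map fun b => δ (ρ (MonoidAlgebra.single b 1))).prod) = 0) :
    (∀ m : ℕ, ∃ y : M, p ^ m • y =
      (Nat.centralBinom n) • T ((e.map ρ) * ((e.map ρ).map δ) ^ (2 * n)).trace) ∧
    ((∀ x : M, (∀ m : ℕ, ∃ y : M, p ^ m • y = x) → x = 0) →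
      (Nat.centralBinom n) • T ((e.map ρ) * ((e.map ρ).map δ) ^ (2 * n)).trace = 0) := by
  have h1 := Pool.Agent.H290R4.Chern.divisible (d := d) hp hG hn h hρ hloc e he
  exact ⟨h1, fun hM => hM _ h1⟩

end Pool.Agent.Results.MP_1a2884_al.ChernDivisible
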